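import Mathlib

/-! # Countable tightness of squares and continuous images of compact spaces -/

open Topology Set

namespace Pool.Agent.V11217.Pol

/-- Countable tightness. -/
def CtTight (X : Type*) [TopologicalSpace X] : Prop :=
  ∀ (S : Set X) (y : X), y ∈ closure S → ∃ T ⊆ S, T.Countable ∧ y ∈ closure T

/-- In a countably tight space a set containing the closures of its countable subsets is closed. -/
lemma CtTight.closed {X : Type*} [TopologicalSpace X] (h : CtTight X) {A : Set X}
    (hA : ∀ C ⊆ A, C.Countable → closure C ⊆ A) : IsClosed A := by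
  rw [← closure_subset_iff_isClosed]
  intro y hy
  obtain ⟨T, hT, hc, hyT⟩ := h A y hy
  exact hA T hT hc hyT

lemma ctTight_of_closed {X : Type*} [TopologicalSpace X]
    (h : ∀ A : Set X, (∀ C ⊆ A, C.Countable → closure C ⊆ A) → IsClosed A) : CtTight X := by
  intro S y hy
  set A : Set X := {z | ∃ T ⊆ S, T.Countable ∧ z ∈ closure T} with hAdef
  have hSA : S ⊆ A := fun z hz => ⟨{z}, by simpa using hz, countable_singleton z,
    subset_closure rfl⟩
  have hAcl : IsClosed A := by
    apply h
    intro C hC hCc z hz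
    have hC' : ∀ c, c ∈ C → ∃ T : Set X, T ⊆ S ∧ T.Countable ∧ c ∈ closure T :=
      fun c hc => hC hc
    choose! T hT1 hT2 hT3 using hC'
    refine ⟨⋃ c ∈ C, T c, ?_, ?_, ?_⟩
    · exact iUnion₂_subset fun c hc => hT1 c hc
    · exact hCc.biUnion fun c hc => hT2 c hc
    · have : C ⊆ closure (⋃ c ∈ C, T c) := by
        intro c hc
        exact closure_mono (subset_iUnion₂_of_subset c hc subset_rfl) (hT3 c hc)
      exact (closure_minimal this isClosed_closure) hz
  exact (closure_minimal hSA hAcl) hy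

/-- Malykhin: the square of a countably tight compact space is countably tight. -/
lemma CtTight.prod {K L : Type*} [TopologicalSpace K] [CompactSpace K] [T2Space K]
    [TopologicalSpace L] [CompactSpace L] [T2Space L] (hK : CtTight K) (hL : CtTight L) :
    CtTight (K × L) := by
  apply ctTight_of_closed
  intro A hA
  -- projections of relatively closed parts are closed
  have key : ∀ F : Set (K × L), IsClosed F → IsClosed (Prod.fst '' (A ∩ F)) := by
    intro F hF
    apply hK.closed
    intro C hC hCc z hz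
    have hne : Nonempty (K × L) := by
      obtain ⟨c, hc⟩ := closure_nonempty_iff.1 ⟨z, hz⟩
      obtain ⟨w, -, -⟩ := hC hc
      exact ⟨w⟩
    have hC' : ∀ c, c ∈ C → ∃ w : K × L, w ∈ A ∩ F ∧ w.1 = c := fun c hc => hC hc
    choose! g hg1 hg2 using hC'
    have h1 : closure (g '' C) ⊆ A ∩ F := by
      apply subset_inter
      · apply hA _ _ (hCc.image g)
        rintro _ ⟨c, hc, rfl⟩
        exact (hg1 c hc).1
      · apply closure_minimal _ hF
        rintro _ ⟨c, hc, rfl⟩
        exact (hg1 c hc).2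
    have h2 : IsClosed (Prod.fst '' closure (g '' C)) :=
      (isClosed_closure.isCompact.image continuous_fst).isClosed
    have h3 : C ⊆ Prod.fst '' closure (g '' C) := fun c hc =>
      ⟨g c, subset_closure ⟨c, hc, rfl⟩, hg2 c hc⟩
    exact (image_mono h1) (closure_minimal h3 h2 hz)
  rw [← closure_subset_iff_isClosed]
  rintro ⟨p, q⟩ hpq
  by_contra hnot
  -- the fibre over `p`
  have hfib : IsClosed {l : L | (p, l) ∈ A} := by
    apply hL.closed
    intro C hC hCc l hl
    have h1 : closure ((fun l : L => (p, l)) '' C) ⊆ A := by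
      apply hA _ _ (hCc.image _)
      rintro _ ⟨c, hc, rfl⟩
      exact hC hc
    apply h1
    exact image_closure_subset_closure_image (by fun_prop) ⟨l, hl, rfl⟩
  have hq : {l : L | (p, l) ∈ A}ᶜ ∈ 𝓝 q := hfib.isOpen_compl.mem_nhds hnot
  obtain ⟨W, hW1, hW2, hW3⟩ := exists_mem_nhds_isClosed_subset hq
  have hcl := key (Prod.snd ⁻¹' W) (hW2.preimage continuous_snd)
  have hp : p ∉ Prod.fst '' (A ∩ Prod.snd ⁻¹' W) := by
    rintro ⟨⟨p', l⟩, ⟨h1, h2⟩, h3⟩
    simp only at h3
    subst h3
    exact hW3 h2 h1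
  have hN : ((Prod.fst '' (A ∩ Prod.snd ⁻¹' W))ᶜ ×ˢ W) ∈ 𝓝 (p, q) :=
    prod_mem_nhds (hcl.isOpen_compl.mem_nhds hp) hW1
  obtain ⟨⟨a, b⟩, ⟨ha, hb⟩, hab⟩ := mem_closure_iff_nhds.1 hpq _ hN
  exact ha ⟨(a, b), ⟨hab, hb⟩, rfl⟩

/-- Continuous images of countably tight compact spaces are countably tight. -/
lemma CtTight.image {X Y : Type*} [TopologicalSpace X] [CompactSpace X]
    [TopologicalSpace Y] [T2Space Y] (hX : CtTight X) (f : X → Y) (hf : Continuous f)
    (hs : Function.Surjective f) : CtTight Y := by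
  intro S y hy
  have h1 : closure S ⊆ f '' closure (f ⁻¹' S) := by
    apply closure_minimal
    · intro s hs'
      obtain ⟨x, rfl⟩ := hs s
      exact ⟨x, subset_closure hs', rfl⟩
    · exact (isClosed_closure.isCompact.image hf).isClosed
  obtain ⟨x, hx, rfl⟩ := h1 hy
  obtain ⟨T, hT, hTc, hxT⟩ := hX _ x hx
  refine ⟨f '' T, ?_, hTc.image f, image_closure_subset_closure_image hf ⟨x, hxT, rfl⟩⟩
  rintro _ ⟨t, ht, rfl⟩
  exact hT ht

end Pool.Agent.V11217.Pol
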