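import Mathlib
import Pool.Agent.V11217.Pol.Tight

/-! # Pair measures of finite partitions -/

open Topology Set MeasureTheory

namespace Pool.Agent.V11217.Pol

section Double

variable {K : Type*} [TopologicalSpace K] [CompactSpace K]
  [MeasurableSpace K] [BorelSpace K]

lemma cint (ρ : Measure K) [IsFiniteMeasure ρ] (f : C(K, ℝ)) : Integrable f ρ :=
  (BoundedContinuousFunction.mkOfCompact f).integrable ρ

/-- Inner integral as a continuous function of the first variable. -/
lemma inner_cont (ρ : Measure K) [IsFiniteMeasure ρ] (h : C(K × K, ℝ)) :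
    Continuous (fun p : K => ∫ q, h (p, q) ∂ρ) := by
  have h1 : Continuous (fun g : C(K, ℝ) => ∫ q, g q ∂ρ) := by
    have : LipschitzWith (ρ.real univ).toNNReal (fun g : C(K, ℝ) => ∫ q, g q ∂ρ) := by
      apply LipschitzWith.of_dist_le_mul
      intro g g'
      rw [Real.dist_eq, ← integral_sub (cint ρ g) (cint ρ g')]
      have := norm_integral_le_of_norm_le_const (μ := ρ) (f := fun q => g q - g' q)
        (C := dist g g') (Filter.Eventually.of_forall fun q => by
          rw [← dist_eq_norm]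
          exact ContinuousMap.dist_apply_le_dist q)
      rw [Real.coe_toNNReal _ measureReal_nonneg]
      rw [Real.norm_eq_abs] at this
      linarith
    exact this.continuous
  exact h1.comp (h.curry).continuous

/-- Inner integral as an element of `C(K)`. -/
noncomputable def inner (ρ : Measure K) [IsFiniteMeasure ρ] (h : C(K × K, ℝ)) : C(K, ℝ) :=
  ⟨fun p => ∫ q, h (p, q) ∂ρ, inner_cont ρ h⟩

/-- The integral of a continuous function over `ρ × ρ`. -/
noncomputable def D (ρ : Measure K) [IsFiniteMeasure ρ] (h : C(K × K, ℝ)) : ℝ :=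
  ∫ p, (∫ q, h (p, q) ∂ρ) ∂ρ

/-- slices of a continuous function -/
noncomputable def slice (h : C(K × K, ℝ)) (p : K) : C(K, ℝ) := ⟨fun q => h (p, q), by fun_prop⟩

lemma slice_int (ρ : Measure K) [IsFiniteMeasure ρ] (h : C(K × K, ℝ)) (p : K) :
    Integrable (fun q => h (p, q)) ρ := cint ρ (slice h p)

lemma inner_int (ρ : Measure K) [IsFiniteMeasure ρ] (h : C(K × K, ℝ)) :
    Integrable (fun p => ∫ q, h (p, q) ∂ρ) ρ := cint ρ (inner ρ h)

lemma D_add (ρ : Measure K) [IsFiniteMeasure ρ] (h h' : C(K × K, ℝ)) :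
    D ρ (h + h') = D ρ h + D ρ h' := by
  unfold D
  rw [← integral_add (inner_int ρ h) (inner_int ρ h')]
  congr 1
  ext p
  rw [← integral_add (slice_int ρ h p) (slice_int ρ h' p)]
  rfl

lemma D_smul (ρ : Measure K) [IsFiniteMeasure ρ] (c : ℝ) (h : C(K × K, ℝ)) :
    D ρ (c • h) = c * D ρ h := by
  unfold D
  rw [← integral_const_mul]
  congr 1
  ext p
  rw [← integral_const_mul]
  rfl

lemma D_nonneg (ρ : Measure K) [IsFiniteMeasure ρ] (h : C(K × K, ℝ)) (hh : ∀ z, 0 ≤ h z) :
    0 ≤ D ρ h :=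
  integral_nonneg fun p => integral_nonneg fun q => hh (p, q)

/-- If `h` is near `c` on `E × E` then `D (ρ|E) h` is near `c m²`. -/
lemma D_near (μ : Measure K) [IsFiniteMeasure μ] {E : Set K} (hE : MeasurableSet E)
    (h : C(K × K, ℝ)) (c ε : ℝ) (hε : ∀ p ∈ E, ∀ q ∈ E, |h (p, q) - c| ≤ ε) :
    |D (μ.restrict E) h - c * μ.real E ^ 2| ≤ ε * μ.real E ^ 2 := by
  have hm : (μ.restrict E).real univ = μ.real E := by simp
  have h1 : ∀ p ∈ E, |∫ q, h (p, q) ∂(μ.restrict E) - c * μ.real E| ≤ ε * μ.real E := by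
    intro p hp
    have e1 : ∫ q, h (p, q) ∂(μ.restrict E) - c * μ.real E
        = ∫ q, (h (p, q) - c) ∂(μ.restrict E) := by
      rw [integral_sub (slice_int _ h p) (integrable_const _)]
      simp [mul_comm]
    rw [e1, ← Real.norm_eq_abs, ← hm]
    apply norm_integral_le_of_norm_le_const
    rw [ae_restrict_iff' hE]
    exact Filter.Eventually.of_forall fun q hq => by
      rw [Real.norm_eq_abs]; exact hε p hp q hq
  have e2 : D (μ.restrict E) h - c * μ.real E ^ 2
      = ∫ p, ((∫ q, h (p, q) ∂(μ.restrict E)) - c * μ.real E) ∂(μ.restrict E) := by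
    rw [integral_sub (inner_int _ h) (integrable_const _)]
    simp only [integral_const, hm, smul_eq_mul]
    unfold D
    ring
  rw [e2, ← Real.norm_eq_abs]
  have h3 := norm_integral_le_of_norm_le_const (μ := μ.restrict E)
    (f := fun p => (∫ q, h (p, q) ∂(μ.restrict E)) - c * μ.real E) (C := ε * μ.real E) (by
      rw [ae_restrict_iff' hE]
      exact Filter.Eventually.of_forall fun p hp => by
        rw [Real.norm_eq_abs]; exact h1 p hp)
  rw [hm] at h3
  calc _ ≤ _ := h3
    _ = _ := by ring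

/-- The lower bound for `|f p - f q|`. -/
lemma D_lower (ρ : Measure K) [IsFiniteMeasure ρ] (f : C(K, ℝ)) (h : C(K × K, ℝ))
    (hh : ∀ p q, h (p, q) = |f p - f q|) :
    ∫ p, |f p - (ρ.real univ)⁻¹ * ∫ q, f q ∂ρ| ∂ρ ≤ (ρ.real univ)⁻¹ * D ρ h := by
  by_cases hm : ρ.real univ = 0
  · have : ρ = 0 := by
      rw [measureReal_eq_zero_iff] at hm
      simpa using hm
    subst this
    simp
  have hpos : 0 < ρ.real univ := lt_of_le_of_ne measureReal_nonneg (Ne.symm hm)
  have hav : ρ.real univ * ((ρ.real univ)⁻¹ * ∫ q, f q ∂ρ) = ∫ q, f q ∂ρ := by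
    field_simp
  generalize (ρ.real univ)⁻¹ * ∫ q, f q ∂ρ = a at hav ⊢
  unfold D
  rw [← integral_const_mul]
  apply integral_mono
  · have : Integrable (fun p => (⟨fun p => |f p - a|, by fun_prop⟩ : C(K, ℝ)) p) ρ := cint ρ _
    exact this
  · exact (inner_int ρ h).const_mul _
  intro p
  simp only
  rw [inv_mul_eq_div, le_div_iff₀ hpos]
  have e1 : |f p - a| * ρ.real univ = |∫ q, (f p - f q) ∂ρ| := by
    rw [integral_sub (integrable_const _) (cint ρ f), integral_const, smul_eq_mul, ← hav,
      ← mul_sub, abs_mul, abs_of_pos hpos, mul_comm]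
  rw [e1]
  simp only [hh]
  exact abs_integral_le_integral_abs

end Double

end Pool.Agent.V11217.Pol
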