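import Mathlib
import Pool.Agent.V11217.Pol.Meas

/-! # The pair measure of a finite partition on a continuous image of the square -/

open Topology Set MeasureTheory
open scoped CompactlySupported

namespace Pool.Agent.V11217.Pol

variable {K : Type*} [TopologicalSpace K] [CompactSpace K]
  [MeasurableSpace K] [BorelSpace K]
  {X : Type*} [TopologicalSpace X] [CompactSpace X] [T2Space X] [MeasurableSpace X] [BorelSpace X]

/-- the functional of the pair measure -/
noncomputable def Lam (μ : Measure K) [IsProbabilityMeasure μ] (Φ : C(K × K, X))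
    (π : SimpleFunc K ℕ) (g : C(X, ℝ)) : ℝ :=
  ∑ i ∈ π.range, (μ.real (π ⁻¹' {i}))⁻¹ * D (μ.restrict (π ⁻¹' {i})) (g.comp Φ)

lemma Lam_add (μ : Measure K) [IsProbabilityMeasure μ] (Φ : C(K × K, X))
    (π : SimpleFunc K ℕ) (g g' : C(X, ℝ)) :
    Lam μ Φ π (g + g') = Lam μ Φ π g + Lam μ Φ π g' := by
  unfold Lam
  rw [← Finset.sum_add_distrib]
  refine Finset.sum_congr rfl fun i _ => ?_
  rw [← mul_add, ← D_add]
  rfl

lemma Lam_smul (μ : Measure K) [IsProbabilityMeasure μ] (Φ : C(K × K, X))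
    (π : SimpleFunc K ℕ) (c : ℝ) (g : C(X, ℝ)) :
    Lam μ Φ π (c • g) = c * Lam μ Φ π g := by
  unfold Lam
  rw [Finset.mul_sum]
  refine Finset.sum_congr rfl fun i _ => ?_
  have : (c • g).comp Φ = c • (g.comp Φ) := rfl
  rw [this, D_smul]
  ring

lemma Lam_nonneg (μ : Measure K) [IsProbabilityMeasure μ] (Φ : C(K × K, X))
    (π : SimpleFunc K ℕ) (g : C(X, ℝ)) (hg : ∀ y, 0 ≤ g y) : 0 ≤ Lam μ Φ π g :=
  Finset.sum_nonneg fun i _ => mul_nonneg (inv_nonneg.2 measureReal_nonneg)
    (D_nonneg _ _ fun z => hg _)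

lemma sum_meas (μ : Measure K) [IsProbabilityMeasure μ] (π : SimpleFunc K ℕ) :
    ∑ i ∈ π.range, μ.real (π ⁻¹' {i}) = 1 := by
  have h := SimpleFunc.sum_range_measure_preimage_singleton π μ
  unfold Measure.real
  rw [← ENNReal.toReal_sum (fun i _ => measure_ne_top μ _), h]
  simp

lemma Lam_near (μ : Measure K) [IsProbabilityMeasure μ] (Φ : C(K × K, X))
    (π : SimpleFunc K ℕ) (g : C(X, ℝ)) (c ε : ℝ)
    (h : ∀ p q, π p = π q → |g (Φ (p, q)) - c| ≤ ε) : |Lam μ Φ π g - c| ≤ ε := by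
  have e1 : Lam μ Φ π g - c = ∑ i ∈ π.range, (μ.real (π ⁻¹' {i}))⁻¹ *
      (D (μ.restrict (π ⁻¹' {i})) (g.comp Φ) - c * μ.real (π ⁻¹' {i}) ^ 2) := by
    have : c = ∑ i ∈ π.range, (μ.real (π ⁻¹' {i}))⁻¹ * (c * μ.real (π ⁻¹' {i}) ^ 2) := by
      conv_lhs => rw [← mul_one c, ← sum_meas μ π, Finset.mul_sum]
      refine Finset.sum_congr rfl fun i _ => ?_
      by_cases h0 : μ.real (π ⁻¹' {i}) = 0
      · simp [h0]
      · field_simp
    conv_lhs => rw [this]
    unfold Lam
    rw [← Finset.sum_sub_distrib]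
    refine Finset.sum_congr rfl fun i _ => ?_
    ring
  rw [e1]
  refine (Finset.abs_sum_le_sum_abs _ _).trans ?_
  have e2 : ε = ∑ i ∈ π.range, ε * μ.real (π ⁻¹' {i}) := by
    rw [← Finset.mul_sum, sum_meas, mul_one]
  rw [e2]
  refine Finset.sum_le_sum fun i _ => ?_
  rw [abs_mul, abs_of_nonneg (inv_nonneg.2 measureReal_nonneg)]
  have h1 := D_near μ (π.measurableSet_fiber i) (g.comp Φ) c ε (fun p hp q hq => by
    apply h
    rw [mem_preimage, mem_singleton_iff] at hp hq
    rw [hp, hq])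
  by_cases h0 : μ.real (π ⁻¹' {i}) = 0
  · simp [h0]
  · have hpos : 0 < μ.real (π ⁻¹' {i}) := lt_of_le_of_ne measureReal_nonneg (Ne.symm h0)
    rw [inv_mul_le_iff₀ hpos]
    calc _ ≤ _ := h1
      _ = _ := by ring

lemma Lam_one (μ : Measure K) [IsProbabilityMeasure μ] (Φ : C(K × K, X))
    (π : SimpleFunc K ℕ) : Lam μ Φ π 1 = 1 := by
  have := Lam_near μ Φ π 1 1 0 (fun p q _ => by simp)
  have h2 := abs_nonpos_iff.1 this
  linarith

/-- The lower bound. -/
lemma Lam_lower (μ : Measure K) [IsProbabilityMeasure μ] (Φ : C(K × K, X))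
    (π : SimpleFunc K ℕ) (f : C(K, ℝ)) (g : C(X, ℝ))
    (hg : ∀ p q, g (Φ (p, q)) = |f p - f q|) :
    ∃ a : ℕ → ℝ, ∫ p, |f p - a (π p)| ∂μ ≤ Lam μ Φ π g := by
  refine ⟨fun i => (μ.real (π ⁻¹' {i}))⁻¹ * ∫ q in π ⁻¹' {i}, f q ∂μ, ?_⟩
  set a : ℕ → ℝ := fun i => (μ.real (π ⁻¹' {i}))⁻¹ * ∫ q in π ⁻¹' {i}, f q ∂μ with ha
  have hint : Integrable (fun p => |f p - a (π p)|) μ := by
    have h1 : Integrable (π.map a) μ := SimpleFunc.integrable_of_isFiniteMeasure _
    exact ((cint μ f).sub h1).abs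
  have hU : (univ : Set K) = ⋃ i ∈ π.range, π ⁻¹' {i} := by
    ext p
    simp
  have e1 : ∫ p, |f p - a (π p)| ∂μ
      = ∑ i ∈ π.range, ∫ p in π ⁻¹' {i}, |f p - a (π p)| ∂μ := by
    rw [← setIntegral_univ]
    conv_lhs => rw [hU]
    rw [integral_biUnion_finset]
    · exact fun i _ => π.measurableSet_fiber i
    · intro i _ j _ hij
      exact disjoint_left.2 fun p hp hq => hij (by
        rw [mem_preimage, mem_singleton_iff] at hp hq
        rw [← hp, ← hq])
    · exact fun i _ => hint.integrableOn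
  rw [e1]
  unfold Lam
  refine Finset.sum_le_sum fun i _ => ?_
  have h2 := D_lower (μ.restrict (π ⁻¹' {i})) f (g.comp Φ) (fun p q => hg p q)
  have hm : (μ.restrict (π ⁻¹' {i})).real univ = μ.real (π ⁻¹' {i}) := by simp
  rw [hm] at h2
  refine le_trans (le_of_eq ?_) h2
  refine setIntegral_congr_fun (π.measurableSet_fiber i) fun p hp => ?_
  rw [mem_preimage, mem_singleton_iff] at hp
  simp only [hp, ha]

/-- The positive functional. -/
noncomputable def plin (μ : Measure K) [IsProbabilityMeasure μ] (Φ : C(K × K, X))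
    (π : SimpleFunc K ℕ) : C_c(X, ℝ) →ₚ[ℝ] ℝ :=
  PositiveLinearMap.mk₀
    { toFun := fun g => Lam μ Φ π g.toContinuousMap
      map_add' := fun g g' => Lam_add μ Φ π g.toContinuousMap g'.toContinuousMap
      map_smul' := fun c g => Lam_smul μ Φ π c g.toContinuousMap }
    (fun g hg => Lam_nonneg μ Φ π g.toContinuousMap fun y => hg y)

/-- The pair measure. -/
noncomputable def nu (μ : Measure K) [IsProbabilityMeasure μ] (Φ : C(K × K, X))
    (π : SimpleFunc K ℕ) : Measure X := RealRMK.rieszMeasure (plin μ Φ π)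

lemma nu_int (μ : Measure K) [IsProbabilityMeasure μ] (Φ : C(K × K, X))
    (π : SimpleFunc K ℕ) (g : C(X, ℝ)) : ∫ y, g y ∂(nu μ Φ π) = Lam μ Φ π g := by
  have := RealRMK.integral_rieszMeasure (plin μ Φ π)
    (CompactlySupportedContinuousMap.continuousMapEquiv g)
  exact this

instance nu_reg (μ : Measure K) [IsProbabilityMeasure μ] (Φ : C(K × K, X))
    (π : SimpleFunc K ℕ) : (nu μ Φ π).Regular := RealRMK.regular_rieszMeasure _

instance nu_fin (μ : Measure K) [IsProbabilityMeasure μ] (Φ : C(K × K, X))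
    (π : SimpleFunc K ℕ) : IsFiniteMeasure (nu μ Φ π) := by
  unfold nu; infer_instance

instance nu_prob (μ : Measure K) [IsProbabilityMeasure μ] (Φ : C(K × K, X))
    (π : SimpleFunc K ℕ) : IsProbabilityMeasure (nu μ Φ π) := by
  have h := nu_int μ Φ π 1
  rw [Lam_one] at h
  simp only [ContinuousMap.one_apply, integral_const, smul_eq_mul, mul_one] at h
  constructor
  have h2 := measureReal_def (nu μ Φ π) univ
  rw [h] at h2
  rw [← ENNReal.ofReal_toReal (measure_ne_top (nu μ Φ π) univ), ← h2]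
  simp

/-- Partitions on whose parts finitely many functions vary little. -/
lemma exists_part (F : Finset C(K, ℝ)) (n : ℕ) :
    ∃ π : SimpleFunc K ℕ, ∀ f ∈ F, ∀ p q, π p = π q → |f p - f q| ≤ 1 / (n + 1) := by
  classical
  induction F using Finset.induction_on with
  | empty => exact ⟨SimpleFunc.const K 0, by simp⟩
  | insert f F _ ih =>
    obtain ⟨π, hπ⟩ := ih
    have hn : (0 : ℝ) < n + 1 := by positivity
    have hb : ∀ p, 0 ≤ (f p + ‖f‖) * (n + 1) ∧ (f p + ‖f‖) * (n + 1) ≤ (2 * ‖f‖) * (n + 1) := by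
      intro p
      have h1 := f.norm_coe_le_norm p
      rw [Real.norm_eq_abs, abs_le] at h1
      constructor
      · exact mul_nonneg (by linarith) hn.le
      · exact mul_le_mul_of_nonneg_right (by linarith) hn.le
    have hmeas : Measurable (fun p => ⌊(f p + ‖f‖) * (n + 1)⌋₊) :=
      Nat.measurable_floor.comp
        ((f.continuous.measurable.add measurable_const).mul measurable_const)
    let σ : SimpleFunc K ℕ :=
      { toFun := fun p => ⌊(f p + ‖f‖) * (n + 1)⌋₊
        measurableSet_fiber' := fun x => hmeas (measurableSet_singleton x)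
        finite_range' := by
          apply (Set.finite_Iic ⌊(2 * ‖f‖) * (n + 1)⌋₊).subset
          rintro _ ⟨p, rfl⟩
          exact Nat.floor_le_floor (hb p).2 }
    refine ⟨(π.pair σ).map (fun z => Nat.pair z.1 z.2), ?_⟩
    intro g hg p q hpq
    simp only [SimpleFunc.map_apply, SimpleFunc.pair_apply, Nat.pair_eq_pair] at hpq
    rw [Finset.mem_insert] at hg
    rcases hg with rfl | hg
    · have h2 : ⌊(g p + ‖g‖) * (n + 1)⌋₊ = ⌊(g q + ‖g‖) * (n + 1)⌋₊ := hpq.2
      have a1 := Nat.floor_le (hb p).1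
      have a2 := Nat.lt_floor_add_one ((g p + ‖g‖) * (n + 1))
      have b1 := Nat.floor_le (hb q).1
      have b2 := Nat.lt_floor_add_one ((g q + ‖g‖) * (n + 1))
      rw [h2] at a1 a2
      have e : |g p - g q| * ((n : ℝ) + 1) = |(g p - g q) * ((n : ℝ) + 1)| := by
        rw [abs_mul, abs_of_pos hn]
      rw [le_div_iff₀ hn, e, abs_le]
      constructor <;> nlinarith
    · exact hπ g hg p q hpq.1

end Pool.Agent.V11217.Pol
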