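import Mathlib
import Pool.Agent.V11217.Pol.Lam

/-! # Countable tightness at a Dirac measure forces separable measures -/

open Topology Set MeasureTheory Filter
open scoped CompactlySupported symmDiff

namespace Pool.Agent.V11217.Pol

/-- The Dirac measure as a point of `P(X)`. -/
noncomputable def diracP {X : Type*} [MeasurableSpace X] (x : X) : ProbabilityMeasure X :=
  ⟨Measure.dirac x, inferInstance⟩

/-- The space of regular Borel probability measures has countable tightness at `δ_x`. -/
def TightAtDirac (X : Type*) [TopologicalSpace X] [MeasurableSpace X] [BorelSpace X] (x : X) :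
    Prop :=
  ∀ A : Set (ProbabilityMeasure X), (∀ ν ∈ A, (ν : Measure X).Regular) →
    diracP x ∈ closure A → ∃ B ⊆ A, B.Countable ∧ diracP x ∈ closure B

variable {K : Type*} [TopologicalSpace K] [CompactSpace K] [T2Space K]
  [MeasurableSpace K] [BorelSpace K]
  {X : Type*} [TopologicalSpace X] [CompactSpace X] [T2Space X] [MeasurableSpace X] [BorelSpace X]

theorem separable_of_tight (Φ : C(K × K, X)) (x0 : X) (G : C(K, ℝ) → C(X, ℝ))
    (hG : ∀ f p q, G f (Φ (p, q)) = |f p - f q|) (hG0 : ∀ f, G f x0 = 0)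
    (hN : ∀ W ∈ 𝓝 x0, ∃ (F : Finset C(K, ℝ)) (δ : ℝ), 0 < δ ∧
      ∀ p q, (∀ f ∈ F, |f p - f q| ≤ δ) → Φ (p, q) ∈ W)
    (hT : TightAtDirac X x0) (μ : Measure K) [IsProbabilityMeasure μ] [μ.Regular] :
    IsSeparable μ := by
  classical
  set M : SimpleFunc K ℕ → ProbabilityMeasure X := fun π => ⟨nu μ Φ π, inferInstance⟩ with hM
  have hA1 : diracP x0 ∈ closure (range M) := by
    choose P hP using fun i : Finset C(K, ℝ) × ℕ => exists_part i.1 i.2
    have ht : Tendsto (fun i => M (P i)) atTop (𝓝 (diracP x0)) := by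
      rw [ProbabilityMeasure.tendsto_iff_forall_integral_tendsto]
      intro g
      have e0 : ∫ ω, g ω ∂((diracP x0 : ProbabilityMeasure X) : Measure X) = g x0 := by
        show ∫ ω, g ω ∂(Measure.dirac x0) = g x0
        exact integral_dirac' _ _ g.continuous.stronglyMeasurable
      rw [e0, Metric.tendsto_atTop]
      intro ε hε
      have hW : {y | |g y - g x0| < ε / 2} ∈ 𝓝 x0 := by
        have := (Metric.continuous_iff'.1 g.continuous) x0 (ε / 2) (by positivity)
        simp only [Real.dist_eq] at this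
        exact this
      obtain ⟨F, δ, hδ, hF⟩ := hN _ hW
      obtain ⟨n, hn⟩ := exists_nat_one_div_lt hδ
      refine ⟨(F, n), fun i hi => ?_⟩
      have hi1 : F ⊆ i.1 := hi.1
      have hi2 : n ≤ i.2 := hi.2
      have h3 := Lam_near μ Φ (P i) g.toContinuousMap (g x0) (ε / 2) (by
        intro p q hpq
        have := hF p q (fun f hf => by
          refine (hP i f (hi1 hf) p q hpq).trans ?_
          refine le_trans ?_ hn.le
          have : (n : ℝ) ≤ i.2 := by exact_mod_cast hi2
          gcongr)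
        exact le_of_lt this)
      rw [← nu_int] at h3
      rw [Real.dist_eq]
      have h4 : |∫ y, g y ∂(nu μ Φ (P i)) - g x0| ≤ ε / 2 := h3
      calc _ ≤ ε / 2 := h4
        _ < ε := by linarith
    exact mem_closure_of_tendsto ht (Eventually.of_forall fun i => ⟨P i, rfl⟩)
  obtain ⟨B, hBA, hBc, hB⟩ := hT (range M) (by
    rintro _ ⟨π, rfl⟩
    exact nu_reg μ Φ π) hA1
  -- the integrals of the functions `G f` are small somewhere on `B`
  have hsmall : ∀ (f : C(K, ℝ)) (ε : ℝ), 0 < ε → ∃ ν ∈ B, ∫ y, G f y ∂(ν : Measure X) < ε := by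
    intro f ε hε
    have hc := ProbabilityMeasure.continuous_integral_boundedContinuousFunction
      (BoundedContinuousFunction.mkOfCompact (G f))
    have ho : IsOpen {ν : ProbabilityMeasure X |
        ∫ y, (BoundedContinuousFunction.mkOfCompact (G f)) y ∂(ν : Measure X) < ε} :=
      isOpen_lt hc continuous_const
    have hx : diracP x0 ∈ {ν : ProbabilityMeasure X |
        ∫ y, (BoundedContinuousFunction.mkOfCompact (G f)) y ∂(ν : Measure X) < ε} := by
      have e0 : ∫ ω, (BoundedContinuousFunction.mkOfCompact (G f)) ω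
          ∂((diracP x0 : ProbabilityMeasure X) : Measure X) = G f x0 := by
        show ∫ ω, G f ω ∂(Measure.dirac x0) = G f x0
        exact integral_dirac' _ _ (G f).continuous.stronglyMeasurable
      rw [mem_setOf_eq, e0, hG0]
      exact hε
    obtain ⟨ν, hν1, hν2⟩ := mem_closure_iff.1 hB _ ho hx
    exact ⟨ν, hν2, hν1⟩
  have hch : ∀ ν, ν ∈ B → ∃ π, M π = ν := fun ν hν => hBA hν
  choose! P hP using hch
  refine ⟨⟨(fun z : ProbabilityMeasure X × Finset ℕ => (P z.1) ⁻¹' (z.2 : Set ℕ)) ''
    (B ×ˢ univ), (hBc.prod countable_univ).image _, ?_⟩⟩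
  constructor
  · rintro _ ⟨z, -, rfl⟩
    exact (P z.1).measurableSet_preimage _
  intro s hs _ ε hε
  -- approximate the indicator by a continuous function
  obtain ⟨g, hg, -⟩ := Integrable.exists_boundedContinuous_integral_sub_le (μ := μ)
    (f := s.indicator (fun _ => (1 : ℝ))) ((integrable_const 1).indicator hs)
    (ε := ε / 8) (by positivity)
  obtain ⟨ν, hν, hνs⟩ := hsmall g.toContinuousMap (ε / 8) (by positivity)
  obtain ⟨a, ha⟩ := Lam_lower μ Φ (P ν) g.toContinuousMap (G g.toContinuousMap)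
    (fun p q => hG _ p q)
  have hνs' : Lam μ Φ (P ν) (G g.toContinuousMap) < ε / 8 := by
    rw [← nu_int]
    have : ((M (P ν) : ProbabilityMeasure X) : Measure X) = nu μ Φ (P ν) := rfl
    rw [← this, hP ν hν]
    exact hνs
  set π := P ν with hπ
  have hiπ : Integrable (fun p => a (π p)) μ := by
    have h1 : Integrable (π.map a) μ := SimpleFunc.integrable_of_isFiniteMeasure _
    exact h1
  have hig : Integrable (fun p => g p) μ := g.integrable μ
  have hi1 : Integrable (s.indicator (fun _ => (1 : ℝ))) μ := (integrable_const 1).indicator hs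
  have hia : Integrable (fun p => ‖s.indicator (fun _ => (1 : ℝ)) p - g p‖) μ :=
    (hi1.sub hig).norm
  have hib : Integrable (fun p => |g p - a (π p)|) μ := (hig.sub hiπ).abs
  have hsum : ∫ p, |s.indicator (fun _ => (1 : ℝ)) p - a (π p)| ∂μ < ε / 4 := by
    have h2 : ∫ p, |s.indicator (fun _ => (1 : ℝ)) p - a (π p)| ∂μ
        ≤ ∫ p, (‖s.indicator (fun _ => (1 : ℝ)) p - g p‖ + |g p - a (π p)|) ∂μ := by
      apply integral_mono (hi1.sub hiπ).abs (hia.add hib)
      intro p
      simp only [Real.norm_eq_abs]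
      exact abs_sub_le _ _ _
    rw [integral_add hia hib] at h2
    have h3 : ∫ p, |g p - a (π p)| ∂μ ≤ Lam μ Φ π (G g.toContinuousMap) := ha
    linarith
  refine ⟨_, ⟨(ν, π.range.filter fun i => 1 / 2 ≤ a i), ⟨hν, mem_univ _⟩, rfl⟩, ?_⟩
  set D : Set K := π ⁻¹' ((π.range.filter fun i => 1 / 2 ≤ a i : Finset ℕ) : Set ℕ) with hD
  have hsub : s ∆ D ⊆ {p | 1 / 2 ≤ |s.indicator (fun _ => (1 : ℝ)) p - a (π p)|} := by
    intro p hp
    rw [mem_symmDiff] at hp
    have hmem : p ∈ D ↔ 1 / 2 ≤ a (π p) := by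
      rw [hD, mem_preimage]
      simp
    rw [mem_setOf_eq]
    rcases hp with ⟨h1, h2⟩ | ⟨h1, h2⟩
    · rw [hmem, not_le] at h2
      rw [indicator_of_mem h1, abs_of_nonneg (by linarith)]
      linarith
    · rw [hmem] at h1
      rw [indicator_of_notMem h2, zero_sub, abs_neg, abs_of_nonneg (by linarith)]
      exact h1
  have hmk := mul_meas_ge_le_integral_of_nonneg (μ := μ)
    (f := fun p => |s.indicator (fun _ => (1 : ℝ)) p - a (π p)|)
    (Eventually.of_forall fun p => abs_nonneg _) ((hi1.sub hiπ).abs) (1 / 2)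
  have h5 : μ.real (s ∆ D) < ε := by
    have := measureReal_mono (μ := μ) hsub
    linarith
  rw [← ENNReal.ofReal_toReal (measure_ne_top μ (s ∆ D))]
  exact (ENNReal.ofReal_lt_ofReal_iff hε).2 h5

end Pool.Agent.V11217.Pol
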